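import Pool.Agent.Helper7.LimsupPeriodic.Proof

set_option autoImplicit false

open Filter MeasureTheory Pool.Agent.Helper7.LimsupPeriodic

namespace Pool.Agent.Results.MP_942486_an.NonconstantLimsup

/-- There is an admissible sequence (uniformly bounded measurable functions on the real line, the
`n`-th one of period `1 / n`) whose pointwise limit superior is not almost everywhere equal to any
constant, and one whose pointwise limit inferior is not almost everywhere equal to any constant. -/
theorem result :
    (∃ f : ℕ → ℝ → ℝ, Admissible f ∧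
      ¬ ∃ c : ℝ, ∀ᵐ x : ℝ, limsup (fun n : ℕ => f n x) atTop = c) ∧
    (∃ f : ℕ → ℝ → ℝ, Admissible f ∧
      ¬ ∃ c : ℝ, ∀ᵐ x : ℝ, liminf (fun n : ℕ => f n x) atTop = c) :=
  Pool.Agent.Helper7.LimsupPeriodic.main

end Pool.Agent.Results.MP_942486_an.NonconstantLimsup
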